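import Mathlib

/-!
# The Brègman-Minc inequality for the number of permutations with prescribed positions
-/

set_option autoImplicit false

open Finset

namespace Pool.Agent.Y372.PC

section seq

variable {κ : Type} [Fintype κ] [DecidableEq κ]

/-- the admissible values of `f` at `i` after the values before `i` have been used -/
def T {n : ℕ} (S : Fin n → Finset κ) (f : Fin n → κ) (i : Fin n) : Finset κ :=
  S i \ (univ.filter fun k => k < i).image f

theorem T_zero {n : ℕ} (S : Fin (n + 1) → Finset κ) (f : Fin (n + 1) → κ) : T S f 0 = S 0 := by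
  have h : (univ.filter fun k : Fin (n + 1) => k < 0) = ∅ := by
    rw [Finset.filter_eq_empty_iff]
    intro k _
    exact Fin.not_lt_zero k
  rw [T, h, image_empty, sdiff_empty]

theorem T_succ {n : ℕ} (S : Fin (n + 1) → Finset κ) (a : κ) (g : Fin n → κ) (i : Fin n) :
    T S (Fin.cons a g : Fin (n + 1) → κ) i.succ = T (fun j => S j.succ \ {a}) g i := by
  ext y
  simp only [T, mem_sdiff, mem_image, mem_filter, mem_univ, true_and, mem_singleton, not_exists,
    not_and]
  constructor
  · rintro ⟨h1, h2⟩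
    refine ⟨⟨h1, ?_⟩, ?_⟩
    · rintro rfl
      exact h2 0 (Fin.succ_pos i) rfl
    · intro k hk hky
      exact h2 k.succ (Fin.succ_lt_succ_iff.2 hk) (by rw [Fin.cons_succ]; exact hky)
  · rintro ⟨⟨h1, h2⟩, h3⟩
    refine ⟨h1, ?_⟩
    intro k
    refine Fin.cases ?_ (fun k => ?_) k
    · intro _ hk
      rw [Fin.cons_zero] at hk
      exact h2 hk.symm
    · intro hk hky
      rw [Fin.cons_succ] at hky
      exact h3 k (Fin.succ_lt_succ_iff.1 hk) hky

/-- sequential random choice has total mass at most one -/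
theorem seq_le : ∀ (n : ℕ) (S : Fin n → Finset κ),
    ∑ f : Fin n → κ, ∏ i, (if f i ∈ T S f i then (1 : ℝ) / (T S f i).card else 0) ≤ 1 := by
  intro n
  induction n with
  | zero =>
    intro S
    simp
  | succ n ih =>
    intro S
    rw [← (Fin.consEquiv fun _ : Fin (n + 1) => κ).sum_comp, Fintype.sum_prod_type]
    have h1 : ∀ a : κ, ∑ g : Fin n → κ, ∏ i : Fin (n + 1),
        (if (Fin.cons a g : Fin (n + 1) → κ) i ∈ T S (Fin.cons a g : Fin (n + 1) → κ) i then
          (1 : ℝ) / (T S (Fin.cons a g : Fin (n + 1) → κ) i).card else 0) ≤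
        if a ∈ S 0 then (1 : ℝ) / (S 0).card else 0 := by
      intro a
      have h2 : ∀ g : Fin n → κ, ∏ i : Fin (n + 1),
        (if (Fin.cons a g : Fin (n + 1) → κ) i ∈ T S (Fin.cons a g : Fin (n + 1) → κ) i then
          (1 : ℝ) / (T S (Fin.cons a g : Fin (n + 1) → κ) i).card else 0) =
          (if a ∈ S 0 then (1 : ℝ) / (S 0).card else 0) *
          ∏ i : Fin n, (if g i ∈ T (fun j => S j.succ \ {a}) g i then
            (1 : ℝ) / (T (fun j => S j.succ \ {a}) g i).card else 0) := by
        intro g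
        rw [Fin.prod_univ_succ]
        simp only [T_zero, T_succ, Fin.cons_zero, Fin.cons_succ]
      rw [Finset.sum_congr rfl fun g _ => h2 g, ← Finset.mul_sum]
      have h3 : (0 : ℝ) ≤ if a ∈ S 0 then (1 : ℝ) / (S 0).card else 0 := by
        split_ifs
        · positivity
        · exact le_rfl
      calc _ ≤ (if a ∈ S 0 then (1 : ℝ) / (S 0).card else 0) * 1 :=
            mul_le_mul_of_nonneg_left (ih _) h3
        _ = _ := mul_one _
    refine (Finset.sum_le_sum fun a _ => h1 a).trans ?_
    rw [← Finset.sum_filter, Finset.filter_mem_eq_inter, Finset.univ_inter, Finset.sum_const,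
      nsmul_eq_mul]
    rcases (S 0).eq_empty_or_nonempty with h | h
    · rw [h]; simp
    · have : ((S 0).card : ℝ) ≠ 0 := by
        exact_mod_cast (Finset.card_pos.2 h).ne'
      rw [mul_one_div_cancel this]

end seq

variable {n : ℕ}

/-- the number of rows of `K` which come not before `i` -/
def rk (K : Finset (Fin n)) (τ : Equiv.Perm (Fin n)) (i : Fin n) : ℕ :=
  (K.filter fun k => τ i ≤ τ k).card

/-- permutations with prescribed positions -/
def adm (S : Fin n → Finset (Fin n)) : Finset (Equiv.Perm (Fin n)) :=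
  univ.filter fun c => ∀ i, c i ∈ S i

/-- the rows whose value lies in `S i` -/
def KK (S : Fin n → Finset (Fin n)) (c : Equiv.Perm (Fin n)) (i : Fin n) : Finset (Fin n) :=
  univ.filter fun k => c k ∈ S i

theorem KK_card (S : Fin n → Finset (Fin n)) (c : Equiv.Perm (Fin n)) (i : Fin n) :
    (KK S c i).card = (S i).card := by
  have h : (KK S c i).map c.toEmbedding = S i := by
    ext y
    simp only [KK, mem_map, mem_filter, mem_univ, true_and, Equiv.coe_toEmbedding]
    constructor
    · rintro ⟨k, hk, rfl⟩; exact hk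
    · intro hy; exact ⟨c.symm y, by simpa using hy, by simp⟩
  rw [← h, Finset.card_map]

theorem T_card (S : Fin n → Finset (Fin n)) (c τ : Equiv.Perm (Fin n)) (i : Fin n) :
    (T (fun t => S (τ.symm t)) (fun t => c (τ.symm t)) (τ i)).card = rk (KK S c i) τ i := by
  have h : ((KK S c i).filter fun k => τ i ≤ τ k).map c.toEmbedding =
      T (fun t => S (τ.symm t)) (fun t => c (τ.symm t)) (τ i) := by
    ext y
    simp only [KK, T, mem_map, mem_filter, mem_univ, true_and, Equiv.coe_toEmbedding, mem_sdiff,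
      mem_image, not_exists, not_and, Equiv.symm_apply_apply]
    constructor
    · rintro ⟨k, ⟨hk, hk2⟩, rfl⟩
      refine ⟨hk, fun t ht h2 => ?_⟩
      have h3 := c.injective h2
      rw [Equiv.symm_apply_eq] at h3
      rw [h3] at ht
      exact absurd hk2 (not_le.2 ht)
    · rintro ⟨hy, h2⟩
      refine ⟨c.symm y, ⟨by simpa using hy, ?_⟩, by simp⟩
      by_contra hlt
      rw [not_le] at hlt
      exact h2 (τ (c.symm y)) hlt (by simp)
  rw [← h, Finset.card_map, rk]

theorem order_le (S : Fin n → Finset (Fin n)) (τ : Equiv.Perm (Fin n)) :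
    ∑ c ∈ adm S, ∏ i, (1 : ℝ) / (rk (KK S c i) τ i) ≤ 1 := by
  refine le_trans ?_ (seq_le n fun t => S (τ.symm t))
  have hinj : Set.InjOn (fun (c : Equiv.Perm (Fin n)) (t : Fin n) => c (τ.symm t))
      (adm S : Set (Equiv.Perm (Fin n))) := by
    intro c _ c' _ h
    ext i
    have := congrFun h (τ i)
    simp only [Equiv.symm_apply_apply] at this
    rw [this]
  have h1 : ∑ c ∈ adm S, ∏ i, (1 : ℝ) / (rk (KK S c i) τ i) =
      ∑ f ∈ (adm S).image (fun (c : Equiv.Perm (Fin n)) (t : Fin n) => c (τ.symm t)),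
        ∏ t, (if f t ∈ T (fun t => S (τ.symm t)) f t then
          (1 : ℝ) / (T (fun t => S (τ.symm t)) f t).card else 0) := by
    rw [Finset.sum_image hinj]
    refine Finset.sum_congr rfl fun c hc => ?_
    refine Eq.trans ?_ (Equiv.prod_comp τ _)
    refine Finset.prod_congr rfl fun i _ => ?_
    have hci := (Finset.mem_filter.1 hc).2 i
    have hmem : c (τ.symm (τ i)) ∈ T (fun t => S (τ.symm t)) (fun t => c (τ.symm t)) (τ i) := by
      simp only [T, mem_sdiff, mem_image, mem_filter, mem_univ, true_and, not_exists, not_and,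
        Equiv.symm_apply_apply]
      refine ⟨hci, fun t ht h2 => ?_⟩
      have h3 := c.injective h2
      rw [Equiv.symm_apply_eq] at h3
      rw [h3] at ht
      exact lt_irrefl _ ht
    refine Eq.trans ?_ (if_pos hmem).symm
    rw [T_card]
  rw [h1]
  refine Finset.sum_le_sum_of_subset_of_nonneg (Finset.subset_univ _) fun f _ _ => ?_
  refine Finset.prod_nonneg fun i _ => ?_
  split_ifs
  · positivity
  · exact le_rfl

theorem rank_sum {α : Type} [LinearOrder α] (φ : ℕ → ℝ) (A : Finset α) :
    ∑ a ∈ A, φ (A.filter fun b => a ≤ b).card = ∑ r ∈ range A.card, φ (r + 1) := by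
  induction A using Finset.induction_on_min with
  | empty => simp
  | insert a s ha ih =>
    have hna : a ∉ s := fun h => lt_irrefl _ (ha a h)
    rw [Finset.sum_insert hna, Finset.card_insert_of_notMem hna, Finset.sum_range_succ, ← ih,
      add_comm]
    congr 1
    · refine Finset.sum_congr rfl fun x hx => ?_
      congr 2
      rw [Finset.filter_insert, if_neg (not_le.2 (ha x hx))]
    · congr 1
      have : (insert a s).filter (fun b => a ≤ b) = insert a s := by
        rw [Finset.filter_eq_self]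
        intro b hb
        rcases Finset.mem_insert.1 hb with rfl | hb
        · exact le_rfl
        · exact (ha b hb).le
      rw [this, Finset.card_insert_of_notMem hna]

theorem rank_sum_perm (φ : ℕ → ℝ) (K : Finset (Fin n)) (τ : Equiv.Perm (Fin n)) :
    ∑ i ∈ K, φ (rk K τ i) = ∑ r ∈ range K.card, φ (r + 1) := by
  have h := rank_sum φ (K.map τ.toEmbedding)
  rw [Finset.card_map, Finset.sum_map] at h
  rw [← h]
  refine Finset.sum_congr rfl fun i _ => ?_
  rw [Finset.filter_map, Finset.card_map]
  rfl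

/-- the average of a function of the rank -/
theorem avg_rank (φ : ℕ → ℝ) (K : Finset (Fin n)) {i : Fin n} (hi : i ∈ K) :
    (K.card : ℝ) * ∑ τ : Equiv.Perm (Fin n), φ (rk K τ i) =
      (Fintype.card (Equiv.Perm (Fin n)) : ℝ) * ∑ r ∈ range K.card, φ (r + 1) := by
  have hsym : ∀ j ∈ K, ∑ τ : Equiv.Perm (Fin n), φ (rk K τ j) =
      ∑ τ : Equiv.Perm (Fin n), φ (rk K τ i) := by
    intro j hj
    rw [← Equiv.sum_comp (Equiv.mulRight (Equiv.swap i j)) (fun τ => φ (rk K τ j))]
    refine Finset.sum_congr rfl fun τ _ => ?_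
    congr 1
    have h1 : (K.filter fun k => (τ * Equiv.swap i j) j ≤ (τ * Equiv.swap i j) k).map
        (Equiv.swap i j).toEmbedding = K.filter fun k => τ i ≤ τ k := by
      ext y
      simp only [mem_map, mem_filter, Equiv.coe_toEmbedding, Equiv.Perm.mul_apply,
        Equiv.swap_apply_right]
      have hK : ∀ k, k ∈ K → Equiv.swap i j k ∈ K := by
        intro k hk
        rcases Equiv.swap_apply_eq_iff.1 (rfl : Equiv.swap i j k = Equiv.swap i j k) with _
        by_cases h1 : k = i
        · rw [h1, Equiv.swap_apply_left]; exact hj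
        · by_cases h2 : k = j
          · rw [h2, Equiv.swap_apply_right]; exact hi
          · rw [Equiv.swap_apply_of_ne_of_ne h1 h2]; exact hk
      constructor
      · rintro ⟨k, ⟨hk, hk2⟩, rfl⟩
        exact ⟨hK k hk, hk2⟩
      · rintro ⟨hy, hy2⟩
        refine ⟨Equiv.swap i j y, ⟨hK y hy, ?_⟩, by simp⟩
        rw [Equiv.swap_apply_self]
        exact hy2
    show rk K ((Equiv.mulRight (Equiv.swap i j)) τ) j = rk K τ i
    rw [rk, rk, ← h1, Finset.card_map]
    rfl
  calc (K.card : ℝ) * ∑ τ : Equiv.Perm (Fin n), φ (rk K τ i)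
      = ∑ j ∈ K, ∑ τ : Equiv.Perm (Fin n), φ (rk K τ j) := by
        rw [Finset.sum_congr rfl hsym, Finset.sum_const, nsmul_eq_mul]
    _ = ∑ τ : Equiv.Perm (Fin n), ∑ j ∈ K, φ (rk K τ j) := Finset.sum_comm
    _ = _ := by
        rw [Finset.sum_congr rfl fun τ _ => rank_sum_perm φ K τ, Finset.sum_const, nsmul_eq_mul,
          Finset.card_univ]

theorem sum_log (d : ℕ) : ∑ r ∈ range d, Real.log ((r + 1 : ℕ) : ℝ) = Real.log (d.factorial : ℝ) := by
  induction d with
  | zero => simp
  | succ d ih =>
    rw [Finset.sum_range_succ, ih, Nat.factorial_succ, Nat.cast_mul, Real.log_mul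
      (by positivity) (by positivity), add_comm]

/-- **the inequality of Brègman** for permutations with prescribed positions -/
theorem bregman (S : Fin n → Finset (Fin n)) :
    ((adm S).card : ℝ) ≤ Real.exp (∑ i, Real.log ((S i).card.factorial : ℝ) / (S i).card) := by
  rcases (adm S).eq_empty_or_nonempty with h0 | ⟨c0, hc0⟩
  · rw [h0]; simp [Real.exp_nonneg]
  set P : ℝ := (Fintype.card (Equiv.Perm (Fin n)) : ℝ) with hP
  have hP0 : 0 < P := by
    rw [hP]
    exact_mod_cast Fintype.card_pos
  set H : ℝ := ∑ i, Real.log ((S i).card.factorial : ℝ) / (S i).card with hH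
  -- lower bound for every admissible permutation
  have hlow : ∀ c ∈ adm S, P * Real.exp (-H) ≤
      ∑ τ : Equiv.Perm (Fin n), ∏ i, (1 : ℝ) / (rk (KK S c i) τ i) := by
    intro c hc
    have hmem : ∀ i, i ∈ KK S c i := fun i =>
      Finset.mem_filter.2 ⟨Finset.mem_univ _, (Finset.mem_filter.1 hc).2 i⟩
    have hrk : ∀ i (τ : Equiv.Perm (Fin n)), 0 < rk (KK S c i) τ i := by
      intro i τ
      exact Finset.card_pos.2 ⟨i, Finset.mem_filter.2 ⟨hmem i, le_rfl⟩⟩
    have hterm : ∀ τ : Equiv.Perm (Fin n), ∏ i, (1 : ℝ) / (rk (KK S c i) τ i) =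
        Real.exp (-∑ i, Real.log (rk (KK S c i) τ i)) := by
      intro τ
      rw [← Finset.sum_neg_distrib, Real.exp_sum]
      refine Finset.prod_congr rfl fun i _ => ?_
      rw [Real.exp_neg, Real.exp_log (by exact_mod_cast hrk i τ), one_div]
    have hJ := convexOn_exp.map_sum_le (t := (Finset.univ : Finset (Equiv.Perm (Fin n))))
      (w := fun _ => 1 / P) (p := fun τ => -∑ i, Real.log (rk (KK S c i) τ i))
      (fun _ _ => by positivity)
      (by rw [Finset.sum_const, Finset.card_univ, nsmul_eq_mul, ← hP, mul_one_div_cancel hP0.ne'])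
      (fun _ _ => Set.mem_univ _)
    have hsum : ∑ τ : Equiv.Perm (Fin n), (1 / P) • (-∑ i, Real.log (rk (KK S c i) τ i)) = -H := by
      simp only [smul_eq_mul]
      rw [← Finset.mul_sum, Finset.sum_neg_distrib, Finset.sum_comm, mul_neg, hH, Finset.mul_sum]
      congr 1
      refine Finset.sum_congr rfl fun i _ => ?_
      have h1 := avg_rank (fun r => Real.log (r : ℝ)) (KK S c i) (hmem i)
      rw [sum_log, KK_card, ← hP] at h1
      have hd : ((S i).card : ℝ) ≠ 0 := by
        have : 0 < (S i).card := by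
          rw [← KK_card S c i]
          exact Finset.card_pos.2 ⟨i, hmem i⟩
        exact_mod_cast this.ne'
      field_simp
      linarith
    rw [hsum] at hJ
    simp only [smul_eq_mul] at hJ
    rw [← Finset.mul_sum] at hJ
    rw [Finset.sum_congr rfl fun τ _ => hterm τ]
    have h2 := mul_le_mul_of_nonneg_left hJ hP0.le
    rwa [← mul_assoc, mul_one_div_cancel hP0.ne', one_mul] at h2
  have h1 : ((adm S).card : ℝ) * (P * Real.exp (-H)) ≤ P := by
    calc ((adm S).card : ℝ) * (P * Real.exp (-H)) = ∑ c ∈ adm S, P * Real.exp (-H) := by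
          rw [Finset.sum_const, nsmul_eq_mul]
      _ ≤ ∑ c ∈ adm S, ∑ τ : Equiv.Perm (Fin n), ∏ i, (1 : ℝ) / (rk (KK S c i) τ i) :=
          Finset.sum_le_sum hlow
      _ = ∑ τ : Equiv.Perm (Fin n), ∑ c ∈ adm S, ∏ i, (1 : ℝ) / (rk (KK S c i) τ i) :=
          Finset.sum_comm
      _ ≤ ∑ τ : Equiv.Perm (Fin n), (1 : ℝ) := Finset.sum_le_sum fun τ _ => order_le S τ
      _ = P := by rw [Finset.sum_const, Finset.card_univ, nsmul_eq_mul, mul_one]
  have h2 : ((adm S).card : ℝ) * Real.exp (-H) ≤ 1 := by
    have h3 : ((adm S).card : ℝ) * (P * Real.exp (-H)) =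
        P * (((adm S).card : ℝ) * Real.exp (-H)) := by ring
    rw [h3] at h1
    by_contra hcon
    push Not at hcon
    nlinarith
  rw [Real.exp_neg] at h2
  have h4 : 0 < Real.exp H := Real.exp_pos H
  rw [← div_eq_mul_inv, div_le_one h4] at h2
  exact h2

end Pool.Agent.Y372.PC
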