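import Mathlib
import Pool.Agent.Helper507.PNT
import Pool.Agent.Y372.PC.Breg

/-!
# Primes in long windows and the size of `(d!)^(1/d)`
-/

set_option autoImplicit false

open Finset Filter Topology

namespace Pool.Agent.Y372.PC

/-- the number of primes in `(j, j + x]`, `j ≤ x`, is at most `(1 + ε) x / log x` -/
theorem window_up (ε : ℝ) (hε : 0 < ε) : ∃ x₀ : ℕ, ∀ x : ℕ, x₀ ≤ x → ∀ j : ℕ, j ≤ x →
    (Nat.primeCounting (x + j) : ℝ) - Nat.primeCounting j ≤ (1 + ε) * (x / Real.log x) := by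
  set η : ℝ := min (1 / 2) (ε / 3) with hη
  have hη0 : 0 < η := by positivity
  have hη1 : η ≤ 1 / 2 := min_le_left _ _
  have hη2 : 3 * η ≤ ε := by
    have := min_le_right (1 / 2 : ℝ) (ε / 3)
    rw [← hη] at this
    linarith
  have h2 := (Helper507.PNT.pi_tendsto.eventually
    (Icc_mem_nhds (show 1 - η < 1 by linarith) (show 1 < 1 + η by linarith)))
  obtain ⟨u₀, hu₀⟩ := eventually_atTop.1 h2
  have e3 : ∀ᶠ x : ℝ in atTop, u₀ ≤ η * x :=
    (tendsto_id.const_mul_atTop hη0).eventually_ge_atTop u₀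
  have e6 : ∀ᶠ x : ℝ in atTop, 2 ≤ η * x :=
    (tendsto_id.const_mul_atTop hη0).eventually_ge_atTop 2
  have e4 : ∀ᶠ x : ℝ in atTop, u₀ ≤ x := eventually_ge_atTop u₀
  have e5 : ∀ᶠ x : ℝ in atTop, (3 : ℝ) ≤ x := eventually_ge_atTop 3
  obtain ⟨x₀, hx₀⟩ := eventually_atTop.1
    (tendsto_natCast_atTop_atTop (R := ℝ) |>.eventually (e3.and (e4.and (e5.and e6))))
  refine ⟨x₀, fun x hx j hj => ?_⟩
  obtain ⟨f3, f4, f5, f6⟩ := hx₀ x hx
  have hx3 : (0 : ℝ) < x := by linarith
  have hlx : 0 < Real.log x := Real.log_pos (by linarith)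
  have hjx : (j : ℝ) ≤ x := by exact_mod_cast hj
  have hj0 : (0 : ℝ) ≤ j := Nat.cast_nonneg j
  -- upper bound for the larger count
  have g1 : (Nat.primeCounting (x + j) : ℝ) * Real.log x ≤ (1 + η) * (x + j) := by
    have h3 := (hu₀ ((x + j : ℕ) : ℝ) (by push_cast; linarith)).2
    rw [Nat.floor_natCast] at h3
    have h5 : 0 < ((x + j : ℕ) : ℝ) := by push_cast; linarith
    rw [div_le_iff₀ h5] at h3
    have h4 : Real.log x ≤ Real.log ((x + j : ℕ) : ℝ) := by
      apply Real.log_le_log hx3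
      push_cast
      linarith
    have h7 := mul_le_mul_of_nonneg_left h4 (Nat.cast_nonneg (α := ℝ) (Nat.primeCounting (x + j)))
    push_cast at h3 h7 ⊢
    linarith
  have g2 : (Nat.primeCounting (x + j) : ℝ) * Real.log x -
      (Nat.primeCounting j : ℝ) * Real.log x ≤ (1 + ε) * x := by
    by_cases hc : η * x ≤ j
    · have h3 := (hu₀ (j : ℝ) (by linarith)).1
      rw [Nat.floor_natCast] at h3
      have h5 : 0 < (j : ℝ) := by linarith
      rw [le_div_iff₀ h5] at h3
      have h4 : Real.log j ≤ Real.log x := Real.log_le_log h5 hjx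
      have h7 := mul_le_mul_of_nonneg_left h4 (Nat.cast_nonneg (α := ℝ) (Nat.primeCounting j))
      nlinarith
    · push Not at hc
      have h8 : 0 ≤ (Nat.primeCounting j : ℝ) * Real.log x := by positivity
      nlinarith
  have g3 : ((Nat.primeCounting (x + j) : ℝ) - Nat.primeCounting j) * Real.log x ≤
      (1 + ε) * x := by linarith
  rw [← mul_div_assoc, le_div_iff₀ hlx]
  exact g3

/-- `log (d!) / d` -/
noncomputable def gf (d : ℕ) : ℝ := Real.log (d.factorial : ℝ) / d

theorem log_fact_le (d : ℕ) : Real.log (d.factorial : ℝ) ≤ d * Real.log ((d + 1 : ℕ) : ℝ) := by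
  have h1 : (d.factorial : ℝ) ≤ ((d + 1 : ℕ) : ℝ) ^ d := by
    exact_mod_cast (Nat.factorial_le_pow d).trans (Nat.pow_le_pow_left (Nat.le_succ d) d)
  calc Real.log (d.factorial : ℝ) ≤ Real.log (((d + 1 : ℕ) : ℝ) ^ d) :=
        Real.log_le_log (by positivity) h1
    _ = _ := Real.log_pow _ _

theorem gf_mono : Monotone gf := by
  refine monotone_nat_of_le_succ fun d => ?_
  unfold gf
  rcases Nat.eq_zero_or_pos d with h | h
  · rw [h]; simp
  · have hd : (0 : ℝ) < d := by exact_mod_cast h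
    rw [div_le_div_iff₀ hd (by positivity), Nat.factorial_succ, Nat.cast_mul, Real.log_mul
      (by positivity) (by positivity)]
    have := log_fact_le d
    push_cast at this ⊢
    nlinarith

theorem log_fact_up : ∀ d : ℕ, 1 ≤ d →
    Real.log (d.factorial : ℝ) ≤ (d + 1) * Real.log d - d + 1 := by
  intro d hd
  induction d, hd using Nat.le_induction with
  | base => simp
  | succ d hd ih =>
    have hd0 : (0 : ℝ) < d := by exact_mod_cast hd
    rw [Nat.factorial_succ, Nat.cast_mul, Real.log_mul (by positivity) (by positivity)]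
    have h1 := Real.one_sub_inv_le_log_of_pos (show (0 : ℝ) < ((d : ℝ) + 1) / d by positivity)
    rw [Real.log_div (by positivity) hd0.ne'] at h1
    have h2 : 1 - (((d : ℝ) + 1) / d)⁻¹ = 1 / (d + 1) := by
      field_simp
      ring
    rw [h2, div_le_iff₀ (by positivity)] at h1
    push_cast
    nlinarith

theorem gf_up (d : ℕ) (hd : 1 ≤ d) : gf d ≤ Real.log d - 1 + (1 + Real.log d) / d := by
  have hd0 : (0 : ℝ) < d := by exact_mod_cast hd
  unfold gf
  rw [div_le_iff₀ hd0]
  have h := log_fact_up d hd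
  have e : (Real.log d - 1 + (1 + Real.log d) / d) * d =
      (d + 1) * Real.log d - d + 1 := by
    field_simp
    ring
  rw [e]
  exact h

end Pool.Agent.Y372.PC
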